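import Pool.Agent.Q237.BZ.Tel

/-!
Job BZ-BND (project BZ of helper295).
-/

set_option autoImplicit false

namespace Pool.Agent.Q237.BZ

open MeasureTheory ProbabilityTheory Set Filter Pool.Agent.Q295.BZ
open scoped NNReal ENNReal Topology Real
open Pool.Agent.Helper807.BS (tt clamp tt_lt_succ tt_mono tt_nonneg tt_lt)

universe u

theorem le_SM {Ω : Type u} {W : ℝ → Ω → ℝ} {ω : Ω} (hW : Continuous fun t => W t ω) {a b r : ℝ}
    (hr : r ∈ Icc a b) : |W r ω - W a ω| ≤ SM W a b ω := by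
  unfold SM
  refine le_csSup ?_ (mem_image_of_mem _ hr)
  refine (isCompact_Icc.image_of_continuousOn ?_).bddAbove
  exact ((hW.sub continuous_const).abs).continuousOn

theorem SM_nonneg {Ω : Type u} (W : ℝ → Ω → ℝ) (ω : Ω) (a b : ℝ) : 0 ≤ SM W a b ω := by
  unfold SM
  refine Real.sSup_nonneg ?_
  rintro x ⟨r, _, rfl⟩
  exact abs_nonneg _

theorem bnd : S_BND.{u} := by
  intro hP Ω _ W hW T hT hz K hK a ha
  have hff0 : ∀ ω n, xs T (fun t => W t ω) n = 0 → ff T W n ω = 0 := by
    intro ω n h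
    unfold ff
    rw [if_neg]
    rw [h]
    exact lt_irrefl _
  have hex : ∀ ω, ∃ N, ∀ n, N ≤ n → xs T (fun t => W t ω) n = 0 := by
    intro ω
    obtain ⟨N, hN⟩ := hz ω
    exact ⟨N, xs_zero_of_le hT (hW ω) hN⟩
  refine ⟨fun ω => ?_, fun t ω => ?_⟩
  · obtain ⟨N, hN⟩ := hex ω
    exact ⟨N, fun n hn => hff0 ω n (hN n hn)⟩
  obtain ⟨N, hN⟩ := hex ω
  set w : ℝ → ℝ := fun t => W t ω with hwdef
  have hw : Continuous w := hW ω
  have hffs : ∑' n, ff T W n ω = ∑ n ∈ Finset.range N, ff T W n ω := by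
    refine tsum_eq_sum fun n hn => ?_
    rw [Finset.mem_range, not_lt] at hn
    exact hff0 ω n (hN n hn)
  have key : ∀ (g : ℕ → ℝ), (∀ n, xs T w n = 0 → g n = 0) →
      (∀ n, |g n| ≤ SM W (tt T n) (tt T (n + 1)) ω + dl T n) →
      |∑' n, a n ω * g n| ≤ K * ∑' n, ff T W n ω := by
    intro g hg0 hg
    rw [hffs, tsum_eq_sum (s := Finset.range N), Finset.mul_sum]
    · refine (Finset.abs_sum_le_sum_abs _ _).trans (Finset.sum_le_sum fun n _ => ?_)
      rcases ((hP T hT w hw n).1).eq_or_lt with h | h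
      · rw [hg0 n h.symm, hff0 ω n h.symm, mul_zero, mul_zero, abs_zero]
      · unfold ff
        rw [if_pos h, abs_mul, ← mul_assoc]
        exact mul_le_mul (ha n ω) (hg n) (abs_nonneg _) ((abs_nonneg _).trans (ha n ω))
    · intro n hn
      rw [Finset.mem_range, not_lt] at hn
      rw [hg0 n (hN n hn), mul_zero]
  have hdl : ∀ n, 0 ≤ dl T n := fun n => (dl_pos hT n).le
  constructor
  · unfold MM
    refine key (fun n => w (clamp (tt T n) (sg T w n) t) - w (tt T n)) ?_ ?_
    · intro n h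
      have h1 := ((hP T hT w hw n).2.2.2.1 h).1
      simp only [h1, clamp_self, sub_self]
    · intro n
      have h1 := hP T hT w hw n
      have h2 : clamp (tt T n) (sg T w n) t ∈ Icc (tt T n) (tt T (n + 1)) :=
        ⟨clamp_ge _ _ _, clamp_le (tt_lt_succ T hT n).le h1.2.2.1⟩
      have h3 := le_SM (W := W) (ω := ω) hw h2
      have h4 : |w (clamp (tt T n) (sg T w n) t) - w (tt T n)| ≤
        SM W (tt T n) (tt T (n + 1)) ω := h3
      linarith [hdl n]
  · unfold AA
    refine key (fun n => clamp (tt T n) (sg T w n) t - tt T n) ?_ ?_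
    · intro n h
      have h1 := ((hP T hT w hw n).2.2.2.1 h).1
      simp only [h1, clamp_self, sub_self]
    · intro n
      have h1 := hP T hT w hw n
      have h2 : clamp (tt T n) (sg T w n) t ∈ Icc (tt T n) (tt T (n + 1)) :=
        ⟨clamp_ge _ _ _, clamp_le (tt_lt_succ T hT n).le h1.2.2.1⟩
      rw [abs_of_nonneg (sub_nonneg.2 h2.1)]
      have h3 := h2.2
      have h4 := SM_nonneg W ω (tt T n) (tt T (n + 1))
      unfold dl
      linarith

end Pool.Agent.Q237.BZ
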