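import Pool.Agent.Q237.BZ.Bnd

/-!
Job BZ-MAX (project BZ of helper295): Levy's inequality and the moments of the maximum.
-/

set_option autoImplicit false

namespace Pool.Agent.Q237.BZ

open MeasureTheory ProbabilityTheory Set Filter Pool.Agent.Q295.BZ
open scoped NNReal ENNReal Topology Real

universe u

variable {Ω : Type u} [mΩ : MeasurableSpace Ω] {P : Measure Ω} [IsProbabilityMeasure P]
  {F : ℝ → MeasurableSpace Ω} {W : ℝ → Ω → ℝ}

theorem inc_meas (h : CB P F W) {s t : ℝ} (hs : 0 ≤ s) (hst : s ≤ t) :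
    Measurable[F t] fun ω => W t ω - W s ω := by
  have h1 : Measurable[F t] (W t) := h.adapted t (hs.trans hst)
  have h2 : Measurable[F t] (W s) := (h.adapted s hs).mono (h.mono s t hst) le_rfl
  exact (measurable_fst.sub measurable_snd : Measurable fun p : ℝ × ℝ => p.1 - p.2).comp
    (h1.prodMk h2)

theorem gauss_half (v : ℝ≥0) : 1 ≤ 2 * gaussianReal 0 v {x | 0 ≤ x} := by
  have h1 : gaussianReal 0 v {x | x ≤ 0} = gaussianReal 0 v {x | 0 ≤ x} := by
    have h2 : (gaussianReal 0 v).map (fun x => -x) = gaussianReal 0 v := by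
      rw [gaussianReal_map_neg, neg_zero]
    conv_lhs => rw [← h2]
    rw [show {x : ℝ | x ≤ 0} = Iic 0 from rfl, Measure.map_apply (by fun_prop) measurableSet_Iic]
    refine congrArg _ (Set.ext fun x => ?_)
    simp
  have h3 : (Set.univ : Set ℝ) ⊆ {x | 0 ≤ x} ∪ {x | x ≤ 0} := fun x _ => le_total 0 x
  calc (1 : ℝ≥0∞) = gaussianReal 0 v Set.univ := measure_univ.symm
    _ ≤ gaussianReal 0 v ({x | 0 ≤ x} ∪ {x | x ≤ 0}) := measure_mono h3
    _ ≤ _ := measure_union_le _ _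
    _ = _ := by rw [h1, two_mul]

theorem inc_half_ge (h : CB P F W) {s t : ℝ} (hs : 0 ≤ s) (hst : s ≤ t) :
    1 ≤ 2 * P {ω | 0 ≤ W t ω - W s ω} := by
  have h1 := h.gauss s t hs hst
  have h2 : P {ω | 0 ≤ W t ω - W s ω} = gaussianReal 0 (t - s).toNNReal {x | 0 ≤ x} := by
    rw [← h1.map_eq, show {x : ℝ | 0 ≤ x} = Ici 0 from rfl,
      Measure.map_apply_of_aemeasurable h1.aemeasurable measurableSet_Ici]
    rfl
  rw [h2]
  exact gauss_half _

theorem inc_half_le (h : CB P F W) {s t : ℝ} (hs : 0 ≤ s) (hst : s ≤ t) :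
    1 ≤ 2 * P {ω | W t ω - W s ω ≤ 0} := by
  have h1 := h.gauss s t hs hst
  have h2 : P {ω | W t ω - W s ω ≤ 0} = gaussianReal 0 (t - s).toNNReal {x | x ≤ 0} := by
    rw [← h1.map_eq, show {x : ℝ | x ≤ 0} = Iic 0 from rfl,
      Measure.map_apply_of_aemeasurable h1.aemeasurable measurableSet_Iic]
    rfl
  rw [h2]
  have h3 : gaussianReal 0 (t - s).toNNReal {x | x ≤ 0} =
      gaussianReal 0 (t - s).toNNReal {x | 0 ≤ x} := by
    have h2 : (gaussianReal 0 (t - s).toNNReal).map (fun x => -x) =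
        gaussianReal 0 (t - s).toNNReal := by
      rw [gaussianReal_map_neg, neg_zero]
    conv_lhs => rw [← h2]
    rw [show {x : ℝ | x ≤ 0} = Iic 0 from rfl, Measure.map_apply (by fun_prop) measurableSet_Iic]
    refine congrArg _ (Set.ext fun x => ?_)
    simp
  rw [h3]
  exact gauss_half _

theorem half_ge (h : CB P F W) {s t : ℝ} (hs : 0 ≤ s) (hst : s ≤ t) {A : Set Ω}
    (hA : MeasurableSet[F s] A) : P A ≤ 2 * P (A ∩ {ω | 0 ≤ W t ω - W s ω}) := by
  have h1 := (ProbabilityTheory.Indep_iff _ _ _).1 (h.indep s t hs hst) A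
    {ω | 0 ≤ W t ω - W s ω} hA ⟨{x | 0 ≤ x}, measurableSet_Ici, rfl⟩
  rw [h1]
  calc P A = P A * 1 := (mul_one _).symm
    _ ≤ P A * (2 * P {ω | 0 ≤ W t ω - W s ω}) := by gcongr; exact inc_half_ge h hs hst
    _ = _ := by ring

theorem half_le (h : CB P F W) {s t : ℝ} (hs : 0 ≤ s) (hst : s ≤ t) {A : Set Ω}
    (hA : MeasurableSet[F s] A) : P A ≤ 2 * P (A ∩ {ω | W t ω - W s ω ≤ 0}) := by
  have h1 := (ProbabilityTheory.Indep_iff _ _ _).1 (h.indep s t hs hst) A
    {ω | W t ω - W s ω ≤ 0} hA ⟨{x | x ≤ 0}, measurableSet_Iic, rfl⟩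
  rw [h1]
  calc P A = P A * 1 := (mul_one _).symm
    _ ≤ P A * (2 * P {ω | W t ω - W s ω ≤ 0}) := by gcongr; exact inc_half_le h hs hst
    _ = _ := by ring

/-- Levy's inequality for a monotone sequence of times -/
theorem levy (h : CB P F W) {a b : ℝ} (ha : 0 ≤ a) (r : ℕ → ℝ) (hr : Monotone r)
    (hra : ∀ k, a ≤ r k) (hrb : ∀ k, r k ≤ b) (l : ℝ) :
    P (⋃ k, {ω | l < |W (r k) ω - W a ω|}) ≤ 2 * P {ω | l < |W b ω - W a ω|} := by
  have hab : a ≤ b := (hra 0).trans (hrb 0)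
  have hmS : ∀ k, Measurable[F (r k)] fun ω => W (r k) ω - W a ω := fun k =>
    inc_meas h ha (hra k)
  have hmB : ∀ k, MeasurableSet[F (r k)] {ω | l < |W (r k) ω - W a ω|} := by
    intro k
    have h1 : MeasurableSet {x : ℝ | l < |x|} :=
      measurableSet_lt measurable_const measurable_abs
    exact (hmS k) h1
  have hmE : ∀ k, MeasurableSet[F (r k)] {ω | 0 ≤ W (r k) ω - W a ω} := by
    intro k
    exact (hmS k) measurableSet_Ici
  have hBinf : MeasurableSet {ω | l < |W b ω - W a ω|} := by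
    have h1 : Measurable fun ω => W b ω - W a ω := (inc_meas h ha hab).mono (h.le b) le_rfl
    exact measurableSet_lt measurable_const (measurable_abs.comp h1)
  set B : ℕ → Set Ω := fun k => {ω | l < |W (r k) ω - W a ω|} with hB
  set A : ℕ → Set Ω := disjointed B with hA
  have hmA : ∀ k, MeasurableSet[F (r k)] (A k) := by
    intro k
    rw [hA, disjointed_eq_inter_compl]
    refine @MeasurableSet.inter _ (F (r k)) _ _ (hmB k) ?_
    refine @MeasurableSet.iInter _ _ (F (r k)) _ _ fun i => ?_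
    refine @MeasurableSet.iInter _ _ (F (r k)) _ _ fun hi => ?_
    exact @MeasurableSet.compl _ _ (F (r k)) (h.mono _ _ (hr hi.le) _ (hmB i))
  have hstep : ∀ k, P (A k) ≤ 2 * P (A k ∩ {ω | l < |W b ω - W a ω|}) := by
    intro k
    have hr0 : 0 ≤ r k := ha.trans (hra k)
    have hE' : MeasurableSet {ω | 0 ≤ W (r k) ω - W a ω} := h.le _ _ (hmE k)
    rw [← measure_inter_add_diff (A k) hE',
      ← measure_inter_add_diff (A k ∩ {ω | l < |W b ω - W a ω|}) hE', mul_add]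
    have hAB : A k ⊆ B k := disjointed_subset B k
    refine add_le_add ?_ ?_
    · refine (half_ge h hr0 (hrb k) (@MeasurableSet.inter _ (F (r k)) _ _ (hmA k)
        (hmE k))).trans ?_
      refine mul_le_mul_right (measure_mono ?_) _
      rintro ω ⟨⟨h1, h2⟩, h3⟩
      have h4 : l < |W (r k) ω - W a ω| := hAB h1
      have h5 : 0 ≤ W (r k) ω - W a ω := h2
      have h6 : 0 ≤ W b ω - W (r k) ω := h3
      refine ⟨⟨h1, ?_⟩, h2⟩
      rw [abs_of_nonneg h5] at h4
      refine lt_of_lt_of_le h4 (le_trans ?_ (le_abs_self _))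
      linarith
    · refine (half_le h hr0 (hrb k) (@MeasurableSet.diff _ (F (r k)) _ _ (hmA k)
        (hmE k))).trans ?_
      refine mul_le_mul_right (measure_mono ?_) _
      rintro ω ⟨⟨h1, h2⟩, h3⟩
      have h4 : l < |W (r k) ω - W a ω| := hAB h1
      have h5 : W (r k) ω - W a ω < 0 := not_le.1 h2
      have h6 : W b ω - W (r k) ω ≤ 0 := h3
      refine ⟨⟨h1, ?_⟩, h2⟩
      rw [abs_of_neg h5] at h4
      refine lt_of_lt_of_le h4 (le_trans ?_ (neg_le_abs _))
      linarith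
  have hdis : Pairwise (Function.onFun Disjoint fun k => A k ∩ {ω | l < |W b ω - W a ω|}) := by
    intro i j hij
    exact ((disjoint_disjointed B) hij).mono inter_subset_left inter_subset_left
  calc P (⋃ k, B k) = P (⋃ k, A k) := by rw [hA, iUnion_disjointed]
    _ ≤ ∑' k, P (A k) := measure_iUnion_le _
    _ ≤ ∑' k, 2 * P (A k ∩ {ω | l < |W b ω - W a ω|}) := ENNReal.tsum_le_tsum hstep
    _ = 2 * P (⋃ k, A k ∩ {ω | l < |W b ω - W a ω|}) := by
        rw [ENNReal.tsum_mul_left, measure_iUnion hdis fun k => (h.le _ _ (hmA k)).inter hBinf]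
    _ ≤ _ := by
        gcongr
        exact iUnion_subset fun k => inter_subset_right

/-- dyadic grid -/
noncomputable def gr (a b : ℝ) (N k : ℕ) : ℝ := a + (b - a) * ((min k (2 ^ N) : ℕ) / 2 ^ N)

theorem gr_mono {a b : ℝ} (hab : a ≤ b) (N : ℕ) : Monotone (gr a b N) := by
  intro i j hij
  unfold gr
  have h1 : (min i (2 ^ N) : ℕ) ≤ (min j (2 ^ N) : ℕ) := min_le_min_right _ hij
  have h2 : ((min i (2 ^ N) : ℕ) : ℝ) ≤ ((min j (2 ^ N) : ℕ) : ℝ) := by exact_mod_cast h1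
  have h3 : 0 ≤ b - a := sub_nonneg.2 hab
  gcongr

theorem gr_ge {a b : ℝ} (hab : a ≤ b) (N k : ℕ) : a ≤ gr a b N k := by
  unfold gr
  have h3 : 0 ≤ b - a := sub_nonneg.2 hab
  have : 0 ≤ (b - a) * ((min k (2 ^ N) : ℕ) / 2 ^ N) := by positivity
  linarith

theorem gr_le {a b : ℝ} (hab : a ≤ b) (N k : ℕ) : gr a b N k ≤ b := by
  unfold gr
  have h3 : 0 ≤ b - a := sub_nonneg.2 hab
  have h4 : ((min k (2 ^ N) : ℕ) : ℝ) / 2 ^ N ≤ 1 := by
    rw [div_le_one (by positivity)]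
    have h5 : min k (2 ^ N) ≤ 2 ^ N := min_le_right _ _
    exact_mod_cast h5
  nlinarith

theorem gr_succ (a b : ℝ) (N k : ℕ) : gr a b (N + 1) (2 * k) = gr a b N k := by
  unfold gr
  have h1 : min (2 * k) (2 ^ (N + 1)) = 2 * min k (2 ^ N) := by
    rw [pow_succ]
    omega
  rw [h1]
  push_cast
  rw [pow_succ]
  congr 2
  field_simp

theorem gr_dense {a b t : ℝ} (hab : a < b) (ht : t ∈ Icc a b) (ε : ℝ) (hε : 0 < ε) :
    ∃ N k, |gr a b N k - t| < ε := by
  have h0 : 0 < b - a := sub_pos.2 hab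
  obtain ⟨N, hN⟩ := exists_pow_lt_of_lt_one (div_pos hε h0) (by norm_num : (1 / 2 : ℝ) < 1)
  set y : ℝ := (t - a) / (b - a) * 2 ^ N with hy
  have hy0 : 0 ≤ y := by
    have := sub_nonneg.2 ht.1
    positivity
  have hy1 : y ≤ 2 ^ N := by
    have h1 : (t - a) / (b - a) ≤ 1 := by
      rw [div_le_one h0]
      linarith [ht.2]
    have h2 : (0 : ℝ) < 2 ^ N := by positivity
    rw [hy]
    nlinarith
  refine ⟨N, ⌊y⌋₊, ?_⟩
  have h2 : (⌊y⌋₊ : ℝ) ≤ y := Nat.floor_le hy0
  have h3 : y < ⌊y⌋₊ + 1 := Nat.lt_floor_add_one y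
  have h4 : min ⌊y⌋₊ (2 ^ N) = ⌊y⌋₊ := by
    refine min_eq_left ?_
    have h5 : (⌊y⌋₊ : ℝ) ≤ ((2 ^ N : ℕ) : ℝ) := by
      push_cast
      exact h2.trans hy1
    exact_mod_cast h5
  have h6 : t = a + (b - a) * (y / 2 ^ N) := by
    rw [hy]
    field_simp
    ring
  unfold gr
  rw [h4]
  have h7 : a + (b - a) * ((⌊y⌋₊ : ℝ) / 2 ^ N) - t = (b - a) * ((⌊y⌋₊ - y) * (1 / 2) ^ N) := by
    conv_lhs => rw [h6]
    rw [one_div, inv_pow]
    field_simp
    ring
  rw [h7, abs_mul, abs_of_pos h0, abs_mul, abs_of_nonneg (by positivity : (0 : ℝ) ≤ (1 / 2) ^ N)]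
  have h8 : |(⌊y⌋₊ : ℝ) - y| ≤ 1 := by
    rw [abs_le]
    constructor <;> linarith
  have h9 : (1 / 2 : ℝ) ^ N * (b - a) < ε := by rwa [lt_div_iff₀ h0] at hN
  have h10 : (0 : ℝ) < (1 / 2) ^ N := by positivity
  calc (b - a) * (|(⌊y⌋₊ : ℝ) - y| * (1 / 2) ^ N) ≤ (b - a) * (1 * (1 / 2) ^ N) := by gcongr
    _ = (1 / 2) ^ N * (b - a) := by ring
    _ < ε := h9

theorem SM_gt_eq (hW : ∀ ω, Continuous fun t => W t ω) {a b : ℝ} (hab : a < b) (l : ℝ) :
    {ω | l < SM W a b ω} = ⋃ N, ⋃ k, {ω | l < |W (gr a b N k) ω - W a ω|} := by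
  ext ω
  simp only [mem_setOf_eq, mem_iUnion]
  constructor
  · intro h
    unfold SM at h
    obtain ⟨x, ⟨t, ht, rfl⟩, hx⟩ := exists_lt_of_lt_csSup ((nonempty_Icc.2 hab.le).image _) h
    have h1 : Continuous fun t => |W t ω - W a ω| := ((hW ω).sub continuous_const).abs
    have h2 : {s | l < |W s ω - W a ω|} ∈ 𝓝 t :=
      (isOpen_lt continuous_const h1).mem_nhds hx
    obtain ⟨ε, hε, hb⟩ := Metric.mem_nhds_iff.1 h2
    obtain ⟨N, k, hk⟩ := gr_dense hab ht ε hε
    exact ⟨N, k, hb (by rwa [Metric.mem_ball, Real.dist_eq])⟩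
  · rintro ⟨N, k, hk⟩
    exact hk.trans_le (le_SM (hW ω) ⟨gr_ge hab.le N k, gr_le hab.le N k⟩)

theorem SM_meas (h : CB P F W) {a b : ℝ} (ha : 0 ≤ a) (hab : a < b) : Measurable (SM W a b) := by
  refine measurable_of_Ioi fun l => ?_
  have h1 : SM W a b ⁻¹' Ioi l = {ω | l < SM W a b ω} := rfl
  rw [h1, SM_gt_eq h.cont hab]
  refine MeasurableSet.iUnion fun N => MeasurableSet.iUnion fun k => ?_
  have h2 : Measurable fun ω => W (gr a b N k) ω - W a ω :=
    (inc_meas h ha (gr_ge hab.le N k)).mono (h.le _) le_rfl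
  exact measurableSet_lt measurable_const (measurable_abs.comp h2)

theorem SM_tail (h : CB P F W) {a b : ℝ} (ha : 0 ≤ a) (hab : a < b) (l : ℝ) :
    P {ω | l < SM W a b ω} ≤ 2 * P {ω | l < |W b ω - W a ω|} := by
  rw [SM_gt_eq h.cont hab]
  have hmono : Monotone fun N => ⋃ k, {ω | l < |W (gr a b N k) ω - W a ω|} := by
    refine monotone_nat_of_le_succ fun N => ?_
    refine iUnion_subset fun k => ?_
    refine subset_iUnion_of_subset (2 * k) ?_
    rw [gr_succ]
  rw [hmono.measure_iUnion]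
  exact iSup_le fun N => levy h ha _ (gr_mono hab.le N) (gr_ge hab.le N) (gr_le hab.le N) l

theorem max : S_MAX.{u} := by
  intro q
  set c : ℝ≥0∞ := ∫⁻ x, ENNReal.ofReal (|x| ^ q) ∂(gaussianReal 0 1) with hc
  have hcf : c ≠ ∞ := by
    have h1 : MemLp id (q : ℝ≥0∞) (gaussianReal 0 1) := by
      have := memLp_id_gaussianReal (μ := 0) (v := 1) (q : ℝ≥0)
      simpa using this
    rcases Nat.eq_zero_or_pos q with hq | hq
    · rw [hc, hq]
      simp
    · have h2 := h1.integrable_norm_pow hq.ne'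
      have h3 := h2.lintegral_lt_top
      refine ne_of_lt ?_
      rw [hc]
      simpa using h3
  refine ⟨2 * c.toReal + 1, ?_⟩
  intro Ω _ P _ F W h a b ha hab
  refine ⟨SM_meas h ha hab, fun ω r hr => le_SM (h.cont ω) hr, fun ω => SM_nonneg W ω a b, ?_⟩
  have hba : 0 < b - a := sub_pos.2 hab
  rcases Nat.eq_zero_or_pos q with hq | hq
  · subst hq
    simp only [pow_zero, ENNReal.ofReal_one, lintegral_const, measure_univ, mul_one]
    rw [ENNReal.one_le_ofReal]
    have : 0 ≤ c.toReal := ENNReal.toReal_nonneg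
    linarith
  have hqr : (0 : ℝ) < q := by exact_mod_cast hq
  have hmS : Measurable fun ω => |W b ω - W a ω| :=
    measurable_abs.comp ((inc_meas h ha hab.le).mono (h.le b) le_rfl)
  have h1 := lintegral_rpow_eq_lintegral_meas_lt_mul P
    (Eventually.of_forall fun ω => SM_nonneg W ω a b) (SM_meas h ha hab).aemeasurable hqr
  have h2 := lintegral_rpow_eq_lintegral_meas_lt_mul P (f := fun ω => |W b ω - W a ω|)
    (Eventually.of_forall fun ω => abs_nonneg _) hmS.aemeasurable hqr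
  simp only [Real.rpow_natCast] at h1 h2
  have h3 : ∫⁻ ω, ENNReal.ofReal (|W b ω - W a ω| ^ q) ∂P =
      ENNReal.ofReal (√(b - a) ^ q) * c := by
    have h4 := h.gauss a b ha hab.le
    have h5 : gaussianReal 0 (b - a).toNNReal = (gaussianReal 0 1).map (fun x => √(b - a) * x) := by
      rw [gaussianReal_map_const_mul, mul_zero]
      congr 1
      ext
      simp only [mul_one, NNReal.coe_mk, Real.coe_toNNReal _ hba.le, Real.sq_sqrt hba.le]
    have h6 : ∫⁻ ω, ENNReal.ofReal (|W b ω - W a ω| ^ q) ∂P =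
        ∫⁻ x, ENNReal.ofReal (|x| ^ q) ∂(gaussianReal 0 (b - a).toNNReal) := by
      rw [← h4.map_eq, lintegral_map' (by fun_prop) h4.aemeasurable]
    rw [h6, h5, lintegral_map (by fun_prop) (by fun_prop), hc,
      ← lintegral_const_mul _ (by fun_prop)]
    refine lintegral_congr fun x => ?_
    rw [abs_mul, abs_of_nonneg (Real.sqrt_nonneg _), mul_pow,
      ENNReal.ofReal_mul (by positivity)]
  have h7 : ∫⁻ ω, ENNReal.ofReal (SM W a b ω ^ q) ∂P ≤
      2 * ∫⁻ ω, ENNReal.ofReal (|W b ω - W a ω| ^ q) ∂P := by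
    rw [h1, h2, mul_left_comm]
    refine mul_le_mul_right ?_ _
    rw [← lintegral_const_mul' _ _ (by norm_num)]
    refine lintegral_mono fun t => ?_
    simp only [← mul_assoc]
    exact mul_le_mul_left (SM_tail h ha hab t) _
  refine h7.trans ?_
  rw [h3, ENNReal.ofReal_mul (by positivity)]
  calc 2 * (ENNReal.ofReal (√(b - a) ^ q) * c) = (2 * c) * ENNReal.ofReal (√(b - a) ^ q) := by ring
    _ ≤ _ := by
      gcongr
      rw [ENNReal.ofReal_add (by positivity) zero_le_one, ENNReal.ofReal_mul zero_le_two,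
        ENNReal.ofReal_toReal hcf]
      simp

end Pool.Agent.Q237.BZ
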