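import Pool.Agent.Q295.BZ.Stm

/-!
Job BZ-PTH (project BZ of helper295): pathwise facts of the hitting construction.
-/

set_option autoImplicit false

namespace Pool.Agent.Q237.BZ

open MeasureTheory ProbabilityTheory Set Filter Pool.Agent.Q295.BZ
open scoped NNReal ENNReal Topology Real
open Pool.Agent.Helper807.BS (tt clamp tt_lt_succ tt_mono tt_nonneg)

section hit

variable {x k a b : ℝ} {w : ℝ → ℝ}

/-- the process of the hitting construction -/
noncomputable def XX (x k a : ℝ) (w : ℝ → ℝ) (r : ℝ) : ℝ := x + π * (w r - w a) - k * (r - a)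

theorem XX_cont (hw : Continuous w) : Continuous (XX x k a w) := by
  unfold XX
  fun_prop

theorem XX_self : XX x k a w a = x := by
  unfold XX
  ring

theorem hit_mem (hw : Continuous w) (hab : a < b) :
    hit x k a b w ∈ {t | t ∈ Icc a b ∧ (t = b ∨ XX x k a w t ≤ 0)} := by
  have hcl : IsClosed {t | t ∈ Icc a b ∧ (t = b ∨ XX x k a w t ≤ 0)} := by
    refine IsClosed.inter isClosed_Icc (IsClosed.union isClosed_singleton ?_)
    exact isClosed_le (XX_cont hw) continuous_const
  exact hcl.csInf_mem ⟨b, ⟨hab.le, le_rfl⟩, Or.inl rfl⟩ ⟨a, fun t ht => ht.1.1⟩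

theorem hit_le {t : ℝ} (ht : t ∈ Icc a b) (h : t = b ∨ XX x k a w t ≤ 0) :
    hit x k a b w ≤ t := csInf_le ⟨a, fun _ ht => ht.1.1⟩ ⟨ht, h⟩

theorem hit_pos {t : ℝ} (hw : Continuous w) (hab : a < b) (ha : a ≤ t)
    (h : t < hit x k a b w) : 0 < XX x k a w t := by
  by_contra hc
  push Not at hc
  have h1 := (hit_mem (x := x) (k := k) hw hab).1.2
  exact absurd (hit_le (x := x) (k := k) ⟨ha, (h.le.trans h1)⟩ (Or.inr hc)) (not_le.2 h)

theorem hit_zero (hw : Continuous w) (hab : a < b) (hx : x = 0) : hit x k a b w = a := by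
  refine le_antisymm (hit_le ⟨le_rfl, hab.le⟩ (Or.inr ?_)) (hit_mem hw hab).1.1
  rw [XX_self, hx]

theorem hit_nonneg (hw : Continuous w) (hab : a < b) (hx : 0 ≤ x) :
    0 ≤ XX x k a w (hit x k a b w) := by
  have h1 := (hit_mem (x := x) (k := k) hw hab).1.1
  rcases h1.eq_or_lt with h2 | h2
  · rw [← h2, XX_self]
    exact hx
  · refine ge_of_tendsto ((XX_cont hw).continuousWithinAt (s := Iio (hit x k a b w))
      (x := hit x k a b w)) ?_
    have h3 : Ioo a (hit x k a b w) ∈ 𝓝[<] (hit x k a b w) := Ioo_mem_nhdsLT h2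
    filter_upwards [h3] with t ht
    exact (hit_pos hw hab ht.1.le ht.2).le

end hit

theorem dl_pos {T : ℝ} (hT : 0 < T) (n : ℕ) : 0 < dl T n := sub_pos.2 (tt_lt_succ T hT n)

theorem xs_succ (T : ℝ) (w : ℝ → ℝ) (n : ℕ) : xs T w (n + 1) =
    XX (xs T w n) (4 * π * mu T n (xs T w n)) (tt T n) w (sg T w n) := rfl

theorem mu_ge {T : ℝ} (hT : 0 < T) (n : ℕ) (x : ℝ) :
    x ≤ 4 * π * mu T n x * (tt T (n + 1) - tt T n) := by
  have h1 := Nat.le_ceil (x / (4 * π * dl T n))
  have h2 : 0 < 4 * π * dl T n := by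
    have := dl_pos hT n
    positivity
  rw [div_le_iff₀ h2] at h1
  calc x ≤ (⌈x / (4 * π * dl T n)⌉₊ : ℝ) * (4 * π * dl T n) := h1
    _ = _ := by unfold mu dl; ring

theorem pth : S_PTH := by
  intro T hT w hw n
  have hab := tt_lt_succ T hT n
  have hnn : ∀ m, 0 ≤ xs T w m := by
    intro m
    induction m with
    | zero => exact zero_le_one
    | succ m ih =>
      rw [xs_succ]
      exact hit_nonneg hw (tt_lt_succ T hT m) ih
  have hmem := hit_mem (x := xs T w n) (k := 4 * π * mu T n (xs T w n)) hw hab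
  have hz : xs T w n = 0 → sg T w n = tt T n ∧ xs T w (n + 1) = 0 := by
    intro h
    have h1 : sg T w n = tt T n := hit_zero hw hab h
    refine ⟨h1, ?_⟩
    rw [xs_succ, h1, XX_self, h]
  refine ⟨hnn n, hmem.1.1, hmem.1.2, hz, ?_, ?_⟩
  · intro h
    have h0 : 0 < xs T w n := by
      refine lt_of_le_of_ne (hnn n) fun h1 => ?_
      rw [(hz h1.symm).2] at h
      exact lt_irrefl _ h
    have h1 : sg T w n = tt T (n + 1) := by
      rcases hmem.2 with h2 | h2
      · exact h2
      · rw [xs_succ] at h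
        exact absurd h (not_lt.2 h2)
    refine ⟨h0, h1, ?_⟩
    rw [xs_succ, h1]
    have h2 := mu_ge hT n (xs T w n)
    unfold XX
    linarith
  · intro s hs1 hs2
    constructor
    · intro h r hr
      exact hit_pos hw hab hr.1 (lt_of_le_of_lt hr.2 h)
    · intro h
      by_contra hc
      push Not at hc
      have h1 := h (sg T w n) ⟨hmem.1.1, hc⟩
      rcases hmem.2 with h2 | h2
      · have h3 : sg T w n = tt T (n + 1) := h2
        linarith
      · exact absurd h1 (not_lt.2 h2)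

end Pool.Agent.Q237.BZ
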