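import Pool.Agent.Q237.BZ.Pth

/-!
Jobs BZ-TEL and BZ-BND (project BZ of helper295).
-/

set_option autoImplicit false

namespace Pool.Agent.Q237.BZ

open MeasureTheory ProbabilityTheory Set Filter Pool.Agent.Q295.BZ
open scoped NNReal ENNReal Topology Real
open Pool.Agent.Helper807.BS (tt clamp tt_lt_succ tt_mono tt_nonneg tt_lt)

universe u

/-- after the first zero everything is zero -/
theorem xs_zero_of_le {T : ℝ} (hT : 0 < T) {w : ℝ → ℝ} (hw : Continuous w) {N : ℕ}
    (hN : xs T w N = 0) : ∀ n, N ≤ n → xs T w n = 0 := by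
  intro n hn
  induction n, hn using Nat.le_induction with
  | base => exact hN
  | succ m _ ih => exact ((pth T hT w hw m).2.2.2.1 ih).2

theorem clamp_self (a t : ℝ) : clamp a a t = a := by
  unfold clamp
  exact max_eq_left (min_le_right _ _)

theorem clamp_ge (a c t : ℝ) : a ≤ clamp a c t := le_max_left _ _

theorem clamp_le {a c b t : ℝ} (h1 : a ≤ b) (h2 : c ≤ b) : clamp a c t ≤ b := by
  unfold clamp
  exact max_le h1 ((min_le_right _ _).trans h2)

theorem clamp_top {a c t : ℝ} (h1 : a ≤ c) (h2 : c ≤ t) : clamp a c t = c := by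
  unfold clamp
  rw [min_eq_right h2, max_eq_right h1]

theorem tel : S_TEL.{u} := by
  intro hP Ω _ W hW T hT hz a a' c c' ha hc ω
  obtain ⟨N, hN⟩ := hz ω
  set w : ℝ → ℝ := fun t => W t ω with hwdef
  have hw : Continuous w := hW ω
  have hxz := xs_zero_of_le hT hw hN
  have hsg : ∀ n, N ≤ n → sg T w n = tt T n := fun n hn =>
    ((hP T hT w hw n).2.2.2.1 (hxz n hn)).1
  have hM : ∀ b : ℕ → Ω → ℝ, MM T W (fun n ω => sg T (fun t => W t ω) n) b T ω =
      ∑ n ∈ Finset.range N, b n ω * (w (sg T w n) - w (tt T n)) := by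
    intro b
    unfold MM
    rw [tsum_eq_sum (s := Finset.range N)]
    · refine Finset.sum_congr rfl fun n _ => ?_
      have h1 := hP T hT w hw n
      rw [clamp_top h1.2.1 (h1.2.2.1.trans (tt_lt T hT _).le)]
    · intro n hn
      rw [Finset.mem_range, not_lt] at hn
      have h1 : (fun n ω => sg T (fun t => W t ω) n) n ω = tt T n := hsg n hn
      rw [h1, clamp_self, sub_self, mul_zero]
  have hA : ∀ b : ℕ → Ω → ℝ, AA T (fun n ω => sg T (fun t => W t ω) n) b T ω =
      ∑ n ∈ Finset.range N, b n ω * (sg T w n - tt T n) := by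
    intro b
    unfold AA
    rw [tsum_eq_sum (s := Finset.range N)]
    · refine Finset.sum_congr rfl fun n _ => ?_
      have h1 := hP T hT w hw n
      rw [clamp_top h1.2.1 (h1.2.2.1.trans (tt_lt T hT _).le)]
    · intro n hn
      rw [Finset.mem_range, not_lt] at hn
      have h1 : (fun n ω => sg T (fun t => W t ω) n) n ω = tt T n := hsg n hn
      rw [h1, clamp_self, sub_self, mul_zero]
  rw [hM, hM, hA, hA, ← Finset.sum_sub_distrib, ← Finset.sum_sub_distrib,
    ← Finset.sum_sub_distrib]
  have h2 : ∀ n ∈ Finset.range N, (a n ω * (w (sg T w n) - w (tt T n)) -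
      a' n ω * (w (sg T w n) - w (tt T n)) - (c n ω * (sg T w n - tt T n) -
        c' n ω * (sg T w n - tt T n))) = xs T w (n + 1) - xs T w n := by
    intro n _
    have h3 := ha n ω
    have h4 : c n ω - c' n ω = 4 * π * mu T n (xs T w n) := hc n ω
    rw [xs_succ]
    unfold XX
    rw [← h4, ← h3]
    ring
  rw [Finset.sum_congr rfl h2, Finset.sum_range_sub (xs T w), hN]
  have h5 : xs T w 0 = 1 := rfl
  rw [h5]
  norm_num

end Pool.Agent.Q237.BZ
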